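import Pool.Agent.Lib.MP_defcf3_al.BR.StageD

/-!
Module CORNMOD of project BR7, stage 3: change of modulus for the corestriction of a cup product from a normal
open subgroup (helper10).
-/

namespace BR7.H10

open BR7

universe u

theorem openStab_quot {G : Type u} [Group G] [TopologicalSpace G] [IsTopologicalGroup G] (N : Subgroup G)
    (hN : N.Normal) (hO : IsOpen (N : Set G)) : OpenStab G (G ⧸ N) := by
  intro x
  have h : {g : G | g • x = x} = (N : Set G) := by
    ext g
    simp only [Set.mem_setOf_eq, SetLike.mem_coe]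
    obtain ⟨y, rfl⟩ := QuotientGroup.mk_surjective x
    have e : g • (QuotientGroup.mk y : G ⧸ N) = QuotientGroup.mk (g * y) := rfl
    rw [e, eq_comm, QuotientGroup.eq, ← mul_assoc]
    constructor
    · intro h
      have := hN.conj_mem _ h y
      simpa [mul_assoc] using this
    · intro h
      have := hN.conj_mem _ h y⁻¹
      simpa [mul_assoc] using this
  rw [h]
  exact hO

theorem out_mem {G : Type u} [Group G] (N : Subgroup G) (g : G) (x : G ⧸ N) :
    (Quotient.out (g • x))⁻¹ * g * Quotient.out x ∈ N := by
  have e : (QuotientGroup.mk (Quotient.out (g • x)) : G ⧸ N) = QuotientGroup.mk (g * Quotient.out x) := by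
    have h1 : (QuotientGroup.mk (Quotient.out (g • x)) : G ⧸ N) = g • x := QuotientGroup.out_eq' _
    have h2 : (QuotientGroup.mk (Quotient.out x) : G ⧸ N) = x := QuotientGroup.out_eq' _
    rw [h1]
    conv_lhs => rw [← h2]
    rfl
  rw [QuotientGroup.eq] at e
  simpa [mul_assoc] using e

theorem cornmod (hGMOD : GcupModStatement.{u}) : CorNModStatement.{u} := by
  intro G A _ _ _ _ _ hD N _ n k m _ _ _ hd hm ψ hψ w hw
  have hu : EqvF (G := G) (fun x : G ⧸ N => (Quotient.out x) • w) := by
    intro g x
    have h := hw _ (out_mem N g x)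
    show Quotient.out (g • x) • w = g • (Quotient.out x • w)
    rw [mul_smul, mul_smul] at h
    conv_lhs => rw [← h]
    rw [smul_inv_smul]
  have hch : GChar m (fun (g : G) (x : G ⧸ N) => ψ ((Quotient.out (g • x))⁻¹ * g * Quotient.out x)) := by
    intro g h x
    show ψ ((Quotient.out ((g * h) • x))⁻¹ * (g * h) * Quotient.out x) =
      ψ ((Quotient.out (g • h • x))⁻¹ * g * Quotient.out (h • x)) +
      ψ ((Quotient.out (h • x))⁻¹ * h * Quotient.out x)
    rw [← hψ.add _ (out_mem N g (h • x)) _ (out_mem N h x), mul_smul]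
    congr 1
    group
  have hos : OpenStab G (G ⧸ N) := openStab_quot N hψ.normal hψ.isOpen
  have hlc : ∀ x : G ⧸ N, IsLocallyConstant
      (fun g : G => ψ ((Quotient.out (g • x))⁻¹ * g * Quotient.out x)) := by
    intro x
    rw [IsLocallyConstant.iff_eventually_eq]
    intro g0
    have h1 : ∀ᶠ g in nhds g0, g • x = g0 • x := by
      have hopen : IsOpen {g : G | (g0⁻¹ * g) • x = x} := by
        have := (hos x).preimage (continuous_mul_left g0⁻¹)
        exact this
      have hmem : g0 ∈ {g : G | (g0⁻¹ * g) • x = x} := by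
        simp
      filter_upwards [hopen.mem_nhds hmem] with g hg
      have hg' : (g0⁻¹ * g) • x = x := hg
      rw [mul_smul, inv_smul_eq_iff] at hg'
      exact hg'
    have h2 : IsLocallyConstant (fun g : G => ψ ((Quotient.out (g0 • x))⁻¹ * g * Quotient.out x)) :=
      hψ.lc.comp_continuous (by fun_prop)
    have h3 := (IsLocallyConstant.iff_eventually_eq _).1 h2 g0
    filter_upwards [h1, h3] with g hg1 hg3
    rw [hg1]
    exact hg3
  exact hGMOD G A (G ⧸ N) hD hos n k m hd hm _ _ hu hch hlc

end BR7.H10
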